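import Mathlib

/-!
MP_947ed7: embeddability on Baire class 1 functions, and on Borel functions, is not a
better-quasi-order for every admissible pair of zero-dimensional Polish spaces.  In fact, whenever
`X` has infinitely many limit points and `Y` is infinite and discrete, there is an infinite
antichain of Baire class 1 functions from `X` to `Y`.
-/

namespace Pool.Agent.Results.MP_947ed7_lc.EmbeddabilityNotBQO

open Topology Set

/-! ### Definitions -/

/-- `X` is a zero-dimensional Polish space. -/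
structure ZeroDimPolish (X : Type) [TopologicalSpace X] : Prop where
  polish : PolishSpace X
  zeroDim : TopologicalSpace.IsTopologicalBasis {s : Set X | IsClopen s}

/-- Embeddability of functions `X → Y`. -/
def Emb {X Y : Type} [TopologicalSpace X] [TopologicalSpace Y] (f g : X → Y) : Prop :=
  ∃ (σ : X → X) (τ : Y → Y), IsEmbedding σ ∧ IsEmbedding τ ∧ ∀ x, g (σ x) = τ (f x)

/-- `s` is a `Σ⁰₂` set: a countable union of closed sets. -/
def IsSigma02 {X : Type} [TopologicalSpace X] (s : Set X) : Prop :=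
  ∃ F : ℕ → Set X, (∀ n, IsClosed (F n)) ∧ s = ⋃ n, F n

/-- Functions of Baire class 1. -/
def BaireOne {X Y : Type} [TopologicalSpace X] [TopologicalSpace Y] (f : X → Y) : Prop :=
  ∀ U : Set Y, IsOpen U → IsSigma02 (f ⁻¹' U)

/-- Borel functions. -/
def BorelFun {X Y : Type} [TopologicalSpace X] [TopologicalSpace Y] (f : X → Y) : Prop :=
  ∀ U : Set Y, IsOpen U → @MeasurableSet X (borel X) (f ⁻¹' U)

/-- The set of infinite subsets of `ℕ`. -/
def InfSet : Type := {B : Set ℕ // B.Infinite}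

open Classical in
/-- characteristic functions -/
noncomputable def chi (B : InfSet) : ℕ → Bool := fun n => decide (n ∈ B.1)

/-- The topology on the infinite subsets of `ℕ` induced from the Cantor space. -/
noncomputable instance : TopologicalSpace InfSet := TopologicalSpace.induced chi inferInstance

/-- `B⁺ = B \ {min B}`. -/
noncomputable def InfSet.shift (B : InfSet) : InfSet := ⟨B.1 \ {sInf B.1}, B.2.sdiff (finite_singleton _)⟩

/-- The infinite subsets of `A`. -/
def Sub (A : InfSet) : Type := {B : InfSet // B.1 ⊆ A.1}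

noncomputable instance (A : InfSet) : TopologicalSpace (Sub A) := instTopologicalSpaceSubtype

/-- `B ↦ B⁺` on the infinite subsets of `A`. -/
noncomputable def Sub.shift {A : InfSet} (B : Sub A) : Sub A :=
  ⟨InfSet.shift B.1, sdiff_subset.trans B.2⟩

/-- `h` is a locally constant multi-sequence with values in `Q` (with domain the set of infinite
subsets of `A`, and countable range). -/
def LocConstMultiSeq {Q : Type} (A : InfSet) (h : Sub A → Q) : Prop :=
  (range h).Countable ∧ ∀ q : Q, IsOpen (h ⁻¹' {q})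

/-- The multi-sequence `h` is bad. -/
def Bad {Q : Type} (r : Q → Q → Prop) {A : InfSet} (h : Sub A → Q) : Prop :=
  ∀ B : Sub A, ¬ r (h B) (h B.shift)

/-- Better-quasi-orders. -/
def IsBQO {Q : Type} (r : Q → Q → Prop) : Prop :=
  ¬ ∃ (A : InfSet) (h : Sub A → Q), LocConstMultiSeq A h ∧ Bad r h

/-- The embeddability relation on the Baire class 1 functions from `X` to `Y` is a bqo. -/
def BaireOneBQO (X Y : Type) [TopologicalSpace X] [TopologicalSpace Y] : Prop :=
  IsBQO (fun f g : {f : X → Y // BaireOne f} => Emb f.1 g.1)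

/-- The embeddability relation on the Borel functions from `X` to `Y` is a bqo. -/
def BorelBQO (X Y : Type) [TopologicalSpace X] [TopologicalSpace Y] : Prop :=
  IsBQO (fun f g : {f : X → Y // BorelFun f} => Emb f.1 g.1)

/-- The set of limit points of `X`. -/
def limitPoints (X : Type) [TopologicalSpace X] : Set X := {x | ¬ IsOpen {x}}

/-- Admissible pairs. -/
def Admissible (X Y : Type) [TopologicalSpace X] [TopologicalSpace Y] : Prop :=
  (limitPoints X).Finite ∨ DiscreteTopology Y

/-- Statement Q1. -/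
def Q1 : Prop :=
  ∀ (X Y : Type) [TopologicalSpace X] [TopologicalSpace Y], ZeroDimPolish X → ZeroDimPolish Y →
    Admissible X Y → BaireOneBQO X Y

/-- Statement Q2. -/
def Q2 : Prop :=
  ∀ (X Y : Type) [TopologicalSpace X] [TopologicalSpace Y], ZeroDimPolish X → ZeroDimPolish Y →
    Admissible X Y → BorelBQO X Y

/-! ### Splitting a punctured neighbourhood -/

section Split

variable {X : Type} [TopologicalSpace X]

theorem exists_clopen_nhd (hz : ZeroDimPolish X) {p : X} {U : Set X} (hU : IsOpen U) (hp : p ∈ U) :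
    ∃ W : Set X, IsClopen W ∧ p ∈ W ∧ W ⊆ U := by
  obtain ⟨W, hW, hpW, hWU⟩ := hz.zeroDim.exists_subset_of_mem_open hp hU
  exact ⟨W, hW, hpW, hWU⟩

theorem split (hz : ZeroDimPolish X) {p : X} (hp : p ∈ limitPoints X) {U : Set X}
    (hU : IsClopen U) (hpU : p ∈ U) :
    ∃ E O : Set X, IsOpen E ∧ IsOpen O ∧ E ⊆ U ∧ O ⊆ U ∧ Disjoint E O ∧ p ∉ E ∧ p ∉ O ∧
      closure E ⊆ E ∪ {p} ∧ closure O ⊆ O ∪ {p} ∧ p ∈ closure E ∧ p ∈ closure O := by
  have := hz.polish
  obtain ⟨V, hV⟩ := (nhds p).exists_antitone_basis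
  have step : ∀ (k : ℕ) (W : {W : Set X // IsClopen W ∧ p ∈ W}),
      ∃ W' : {W : Set X // IsClopen W ∧ p ∈ W}, W'.1 ⊆ W.1 ∧ W'.1 ⊆ V k ∧ ∃ x ∈ W.1, x ∉ W'.1 := by
    intro k W
    have h1 : ∃ x ∈ W.1, x ≠ p := by
      by_contra hcon
      push Not at hcon
      apply hp
      have : W.1 = {p} := by
        apply Set.eq_singleton_iff_unique_mem.2
        exact ⟨W.2.2, hcon⟩
      rw [← this]
      exact W.2.1.isOpen
    obtain ⟨x, hx, hxp⟩ := h1
    have h2 : W.1 ∩ interior (V k) ∩ {x}ᶜ ∈ nhds p := by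
      refine Filter.inter_mem (Filter.inter_mem (W.2.1.isOpen.mem_nhds W.2.2) ?_) ?_
      · exact interior_mem_nhds.2 (hV.mem k)
      · exact isOpen_compl_singleton.mem_nhds (fun h => hxp h.symm)
    obtain ⟨W', hW', hpW', hsub⟩ := exists_clopen_nhd hz
      ((W.2.1.isOpen.inter isOpen_interior).inter isOpen_compl_singleton) (mem_of_mem_nhds h2)
    exact ⟨⟨W', hW', hpW'⟩, fun y hy => (hsub hy).1.1, fun y hy => interior_subset (hsub hy).1.2,
      x, hx, fun hxW => (hsub hxW).2 rfl⟩
  choose nx hnx1 hnx2 hnx3 using step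
  let W : ℕ → {W : Set X // IsClopen W ∧ p ∈ W} := fun k => Nat.rec ⟨U, hU, hpU⟩ (fun k W => nx k W) k
  have hW0 : (W 0).1 = U := rfl
  have hWs : ∀ k, W (k + 1) = nx k (W k) := fun k => rfl
  have hanti : Antitone (fun k => (W k).1) := by
    apply antitone_nat_of_succ_le
    intro k
    change (W (k+1)).1 ⊆ (W k).1
    rw [hWs]
    exact hnx1 k (W k)
  have hWV : ∀ k, (W (k+1)).1 ⊆ V k := by
    intro k
    rw [hWs]
    exact hnx2 k (W k)
  have hWne : ∀ k, ∃ x ∈ (W k).1, x ∉ (W (k+1)).1 := by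
    intro k
    rw [hWs]
    exact hnx3 k (W k)
  -- every point of `U` other than `p` leaves some `W k`
  have hleave : ∀ x ∈ U, x ≠ p → ∃ k, x ∈ (W k).1 ∧ x ∉ (W (k+1)).1 := by
    intro x hx hxp
    by_contra hcon
    push Not at hcon
    have hall : ∀ k, x ∈ (W k).1 := by
      intro k
      induction k with
      | zero => exact hx
      | succ k ih => exact hcon k ih
    have : {x}ᶜ ∈ nhds p := isOpen_compl_singleton.mem_nhds (fun h => hxp h.symm)
    obtain ⟨k, hk⟩ := hV.mem_iff.1 this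
    exact hk (hWV k (hall (k+1))) rfl
  -- the rings
  let R : ℕ → Set X := fun k => (W k).1 \ (W (k+1)).1
  have hRopen : ∀ k, IsOpen (R k) := fun k => (W k).2.1.isOpen.sdiff (W (k+1)).2.1.isClosed
  have hRdisj : ∀ k l x, x ∈ R k → x ∈ R l → k = l := by
    intro k l x hk hl
    rcases lt_trichotomy k l with h | h | h
    · exact absurd (hanti (Nat.succ_le_of_lt h) hl.1) hk.2
    · exact h
    · exact absurd (hanti (Nat.succ_le_of_lt h) hk.1) hl.2
  have hRp : ∀ k, p ∉ R k := fun k h => h.2 (W (k+1)).2.2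
  have hRU : ∀ k, R k ⊆ U := fun k x hx => hanti (Nat.zero_le k) hx.1
  have hmain : ∀ P : ℕ → Prop, (∀ N, ∃ k ≥ N, P k) →
      p ∈ closure (⋃ k ∈ {k | P k}, R k) := by
    intro P hP
    rw [mem_closure_iff_nhds]
    intro t ht
    obtain ⟨N, hN⟩ := hV.mem_iff.1 ht
    obtain ⟨k, hk, hPk⟩ := hP (N+1)
    obtain ⟨x, hx1, hx2⟩ := hWne k
    refine ⟨x, hN ?_, ?_⟩
    · exact hWV N (hanti hk hx1)
    · exact mem_iUnion₂.2 ⟨k, hPk, hx1, hx2⟩
  have hclos : ∀ P : ℕ → Prop, closure (⋃ k ∈ {k | P k}, R k) ⊆ (⋃ k ∈ {k | P k}, R k) ∪ {p} := by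
    intro P x hx
    by_contra hcon
    have hx1 : x ∉ (⋃ k ∈ {k | P k}, R k) := fun h => hcon (Or.inl h)
    have hx2 : x ≠ p := fun h => hcon (Or.inr h)
    have hxU : x ∈ U := by
      have h1 : (⋃ k ∈ {k | P k}, R k) ⊆ U := iUnion₂_subset fun k _ => hRU k
      exact hU.isClosed.closure_subset_iff.2 h1 hx
    obtain ⟨k, hk1, hk2⟩ := hleave x hxU hx2
    have hxk : x ∈ R k := ⟨hk1, hk2⟩
    rw [mem_closure_iff] at hx
    obtain ⟨z, hz1, hz2⟩ := hx (R k) (hRopen k) hxk
    obtain ⟨l, hl, hzl⟩ := mem_iUnion₂.1 hz2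
    have : k = l := hRdisj k l z hz1 hzl
    subst this
    exact hx1 (mem_iUnion₂.2 ⟨k, hl, hxk⟩)
  refine ⟨⋃ k ∈ {k | Even k}, R k, ⋃ k ∈ {k | ¬ Even k}, R k, isOpen_biUnion fun k _ => hRopen k,
    isOpen_biUnion fun k _ => hRopen k, iUnion₂_subset fun k _ => hRU k,
    iUnion₂_subset fun k _ => hRU k, ?_, ?_, ?_, hclos _, hclos _, hmain _ ?_, hmain _ ?_⟩
  · rw [Set.disjoint_left]
    intro x hx hx'
    obtain ⟨k, hk, hxk⟩ := mem_iUnion₂.1 hx
    obtain ⟨l, hl, hxl⟩ := mem_iUnion₂.1 hx'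
    have := hRdisj k l x hxk hxl
    subst this
    exact hl hk
  · intro h
    obtain ⟨k, hk, hxk⟩ := mem_iUnion₂.1 h
    exact hRp k hxk
  · intro h
    obtain ⟨k, hk, hxk⟩ := mem_iUnion₂.1 h
    exact hRp k hxk
  · intro N
    exact ⟨2 * N, by omega, even_two_mul N⟩
  · intro N
    refine ⟨2 * N + 1, by omega, ?_⟩
    rw [Nat.not_even_iff_odd]
    exact ⟨N, rfl⟩

/-- The configuration of open sets used to define the functions. -/
theorem exists_config (hz : ZeroDimPolish X) (hinf : (limitPoints X).Infinite) :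
    ∃ (p : ℕ → X) (D : ℕ → Set X), Function.Injective p ∧ (∀ k, IsOpen (D k)) ∧
      (∀ k l x, x ∈ D k → x ∈ D l → k = l) ∧ (∀ i k, p i ∉ D k) ∧
      (∀ k, closure (D k) ⊆ D k ∪ {p (k / 2)}) ∧ (∀ k, p (k / 2) ∈ closure (D k)) := by
  have := hz.polish
  have hinf' : Infinite (limitPoints X) := hinf.to_subtype
  obtain ⟨p', hp'⟩ := exists_topology_isEmbedding_nat (limitPoints X)
  let p : ℕ → X := fun i => (p' i).1
  have hemb : IsEmbedding p := IsEmbedding.subtypeVal.comp hp'
  have hinj : Function.Injective p := hemb.injective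
  -- clopen neighbourhoods isolating each point
  have h1 : ∀ i, ∃ V : Set X, IsClopen V ∧ p i ∈ V ∧ ∀ j, j ≠ i → p j ∉ V := by
    intro i
    have hop : IsOpen ({i} : Set ℕ) := isOpen_discrete _
    obtain ⟨V, hV, hVi⟩ := hemb.isInducing.isOpen_iff.1 hop
    have hiV : p i ∈ V := by
      have : i ∈ p ⁻¹' V := by rw [hVi]; rfl
      exact this
    obtain ⟨W, hW, hpW, hWV⟩ := exists_clopen_nhd hz hV hiV
    refine ⟨W, hW, hpW, fun j hj hjW => hj ?_⟩
    have : j ∈ p ⁻¹' V := hWV hjW
    rw [hVi] at this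
    exact this
  choose V hV hpV hVj using h1
  let U : ℕ → Set X := fun i => V i \ ⋃ j ∈ Finset.range i, V j
  have hU : ∀ i, IsClopen (U i) := by
    intro i
    exact (hV i).diff (isClopen_biUnion_finset fun j _ => hV j)
  have hpU : ∀ i, p i ∈ U i := by
    intro i
    refine ⟨hpV i, ?_⟩
    intro h
    obtain ⟨j, hj, hpj⟩ := mem_iUnion₂.1 h
    exact hVj j i (by have := Finset.mem_range.1 hj; omega) hpj
  have hUdisj : ∀ i j x, x ∈ U i → x ∈ U j → i = j := by
    intro i j x hi hj
    rcases lt_trichotomy i j with h | h | h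
    · exact absurd (mem_iUnion₂.2 ⟨i, Finset.mem_range.2 h, hi.1⟩) hj.2
    · exact h
    · exact absurd (mem_iUnion₂.2 ⟨j, Finset.mem_range.2 h, hj.1⟩) hi.2
  have h2 := fun i => split hz (p' i).2 (hU i) (hpU i)
  choose E O hE hO hEU hOU hEO hpE hpO hcE hcO hpcE hpcO using h2
  let D : ℕ → Set X := fun k => if k % 2 = 0 then E (k / 2) else O (k / 2)
  have hDU : ∀ k, D k ⊆ U (k / 2) := by
    intro k
    simp only [D]
    split_ifs
    · exact hEU _
    · exact hOU _
  refine ⟨p, D, hinj, ?_, ?_, ?_, ?_, ?_⟩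
  · intro k
    simp only [D]
    split_ifs
    · exact hE _
    · exact hO _
  · intro k l x hk hl
    have h3 : k / 2 = l / 2 := hUdisj _ _ x (hDU k hk) (hDU l hl)
    by_contra hkl
    simp only [D] at hk hl
    split_ifs at hk hl with h4 h5 h6
    · omega
    · rw [← h3] at hl
      exact (Set.disjoint_left.1 (hEO _)) hk hl
    · rw [← h3] at hl
      exact (Set.disjoint_left.1 (hEO _)) hl hk
    · omega
  · intro i k h
    have h3 : i = k / 2 := hUdisj _ _ _ (hpU i) (hDU k h)
    subst h3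
    simp only [D] at h
    split_ifs at h
    · exact hpE _ h
    · exact hpO _ h
  · intro k
    simp only [D]
    split_ifs
    · exact hcE _
    · exact hcO _
  · intro k
    simp only [D]
    split_ifs
    · exact hpcE _
    · exact hpcO _

end Split

/-! ### The functions -/

section Functions

variable {X Y : Type} [TopologicalSpace X] [TopologicalSpace Y]

/-- the value attached to the `k`-th open set, in the function coding the cycle of length `n` -/
def val (e : ℕ → Y) (n k : ℕ) : Y := if k % 2 = 0 then e (k / 2 + 1) else e ((k / 2 + 1) % n + 1)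

open Classical in
/-- The function coding the cycle of length `n`. -/
noncomputable def fn (D : ℕ → Set X) (e : ℕ → Y) (n : ℕ) (x : X) : Y :=
  if h : ∃ k < 2 * n, x ∈ D k then val e n h.choose else e 0

omit [TopologicalSpace X] [TopologicalSpace Y] in
theorem fn_of_mem {D : ℕ → Set X} (hdisj : ∀ k l x, x ∈ D k → x ∈ D l → k = l) (e : ℕ → Y)
    {n k : ℕ} (hk : k < 2 * n) {x : X} (hx : x ∈ D k) : fn D e n x = val e n k := by
  have h : ∃ k < 2 * n, x ∈ D k := ⟨k, hk, hx⟩
  have h2 : h.choose = k := hdisj _ _ x h.choose_spec.2 hx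
  unfold fn
  rw [dif_pos h, h2]

omit [TopologicalSpace X] [TopologicalSpace Y] in
theorem fn_of_notMem {D : ℕ → Set X} (e : ℕ → Y) {n : ℕ} {x : X} (h : ∀ k < 2 * n, x ∉ D k) :
    fn D e n x = e 0 := by
  unfold fn
  rw [dif_neg]
  rintro ⟨k, hk, hx⟩
  exact h k hk hx

omit [TopologicalSpace Y] in
theorem val_ne {e : ℕ → Y} (he : Function.Injective e) (n k : ℕ) : val e n k ≠ e 0 := by
  unfold val
  split_ifs
  · exact fun h => absurd (he h) (by omega)
  · exact fun h => absurd (he h) (by omega)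

omit [TopologicalSpace Y] in
theorem preimage_open {D : ℕ → Set X} (hD : ∀ k, IsOpen (D k))
    (hdisj : ∀ k l x, x ∈ D k → x ∈ D l → k = l) {e : ℕ → Y}
    (n : ℕ) (V : Set Y) (hV : e 0 ∉ V) : IsOpen (fn D e n ⁻¹' V) := by
  have : fn D e n ⁻¹' V = ⋃ k ∈ {k | k < 2 * n ∧ val e n k ∈ V}, D k := by
    ext x
    constructor
    · intro hx
      by_cases h : ∃ k < 2 * n, x ∈ D k
      · obtain ⟨k, hk, hxk⟩ := h
        refine mem_iUnion₂.2 ⟨k, ⟨hk, ?_⟩, hxk⟩
        rw [← fn_of_mem hdisj e hk hxk]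
        exact hx
      · push Not at h
        have h2 : fn D e n x ∈ V := hx
        rw [fn_of_notMem e h] at h2
        exact absurd h2 hV
    · intro hx
      obtain ⟨k, ⟨hk, hkV⟩, hxk⟩ := mem_iUnion₂.1 hx
      change fn D e n x ∈ V
      rw [fn_of_mem hdisj e hk hxk]
      exact hkV
  rw [this]
  exact isOpen_biUnion fun k _ => hD k

theorem preimage_zero_closed {D : ℕ → Set X} (hD : ∀ k, IsOpen (D k))
    (hdisj : ∀ k l x, x ∈ D k → x ∈ D l → k = l) {e : ℕ → Y}
    (n : ℕ) : IsClosed (fn D e n ⁻¹' {e 0}) := by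
  have := preimage_open hD hdisj (e := e) n {e 0}ᶜ (by simp)
  rw [← isOpen_compl_iff]
  exact this

theorem sigma02_of_open (hX : PolishSpace X) {U : Set X} (hU : IsOpen U) : IsSigma02 U := by
  let _ := TopologicalSpace.upgradeIsCompletelyMetrizable X
  have h : IsGδ Uᶜ := hU.isClosed_compl.isGδ
  obtain ⟨f, hf, hUf⟩ := isGδ_iff_eq_iInter_nat.1 h
  refine ⟨fun n => (f n)ᶜ, fun n => (hf n).isClosed_compl, ?_⟩
  rw [← compl_compl U, hUf, compl_iInter]

theorem fn_baireOne (hX : PolishSpace X) {D : ℕ → Set X} (hD : ∀ k, IsOpen (D k))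
    (hdisj : ∀ k l x, x ∈ D k → x ∈ D l → k = l) (e : ℕ → Y) (n : ℕ) : BaireOne (fn D e n) := by
  intro U _
  have h1 : fn D e n ⁻¹' U = fn D e n ⁻¹' (U \ {e 0}) ∪ fn D e n ⁻¹' (U ∩ {e 0}) := by
    rw [← preimage_union, sdiff_union_inter]
  obtain ⟨F, hF, hFe⟩ := sigma02_of_open hX (preimage_open hD hdisj n (U \ {e 0})
    (fun h => h.2 rfl) : IsOpen (fn D e n ⁻¹' (U \ {e 0})))
  have h2 : IsClosed (fn D e n ⁻¹' (U ∩ {e 0})) := by
    by_cases h0 : e 0 ∈ U
    · rw [inter_eq_self_of_subset_right (singleton_subset_iff.2 h0)]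
      exact preimage_zero_closed hD hdisj n
    · rw [inter_singleton_eq_empty.2 h0]
      simp
  refine ⟨fun k => F k ∪ fn D e n ⁻¹' (U ∩ {e 0}), fun k => (hF k).union h2, ?_⟩
  rw [h1, hFe, ← iUnion_union]

theorem BaireOne.borel {f : X → Y} (hf : BaireOne f) : BorelFun f := by
  intro U hU
  obtain ⟨F, hF, h⟩ := hf U hU
  rw [h]
  borelize X
  exact MeasurableSet.iUnion fun n => (hF n).measurableSet

/-- The combinatorial core: an embedding of the `n`-cycle into the `m`-cycle. -/
theorem cycle_core {n m : ℕ} (hn : 2 ≤ n) (s t : ℕ → ℕ) (hs : ∀ i < n, s i < m)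
    (hsi : ∀ i < n, ∀ j < n, s i = s j → i = j) (hti : ∀ i < n, ∀ j < n, t i = t j → i = j)
    (h1 : ∀ i < n, t i = s i ∨ t i = (s i + 1) % m)
    (h2 : ∀ i < n, t ((i + 1) % n) = s i ∨ t ((i + 1) % n) = (s i + 1) % m) : n = m := by
  classical
  have hn0 : 0 < n := by omega
  set S := (Finset.range n).image s with hS
  set T := (Finset.range n).image t with hT
  have hScard : S.card = n := by
    rw [hS, Finset.card_image_of_injOn, Finset.card_range]
    intro i hi j hj h
    exact hsi i (Finset.mem_range.1 hi) j (Finset.mem_range.1 hj) h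
  have hTcard : T.card = n := by
    rw [hT, Finset.card_image_of_injOn, Finset.card_range]
    intro i hi j hj h
    exact hti i (Finset.mem_range.1 hi) j (Finset.mem_range.1 hj) h
  have hboth : ∀ i < n, s i ∈ T ∧ (s i + 1) % m ∈ T := by
    intro i hi
    have hi' : (i + 1) % n < n := Nat.mod_lt _ hn0
    have hne : t i ≠ t ((i + 1) % n) := by
      intro h
      have h3 := hti i hi _ hi' h
      rcases Nat.lt_or_ge (i + 1) n with h4 | h4
      · rw [Nat.mod_eq_of_lt h4] at h3
        omega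
      · have : i + 1 = n := by omega
        rw [this, Nat.mod_self] at h3
        omega
    have hti' : t i ∈ T := Finset.mem_image.2 ⟨i, Finset.mem_range.2 hi, rfl⟩
    have hti'' : t ((i + 1) % n) ∈ T := Finset.mem_image.2 ⟨_, Finset.mem_range.2 hi', rfl⟩
    rcases h1 i hi with h3 | h3 <;> rcases h2 i hi with h4 | h4
    · exact absurd (h3.trans h4.symm) hne
    · exact ⟨h3 ▸ hti', h4 ▸ hti''⟩
    · exact ⟨h4 ▸ hti'', h3 ▸ hti'⟩
    · exact absurd (h3.trans h4.symm) hne
  have hST : S ⊆ T := by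
    intro x hx
    obtain ⟨i, hi, rfl⟩ := Finset.mem_image.1 hx
    exact (hboth i (Finset.mem_range.1 hi)).1
  have hSeq : S = T := Finset.eq_of_subset_of_card_le hST (by rw [hScard, hTcard])
  have hclosed : ∀ x ∈ S, (x + 1) % m ∈ S := by
    intro x hx
    obtain ⟨i, hi, rfl⟩ := Finset.mem_image.1 hx
    rw [hSeq]
    exact (hboth i (Finset.mem_range.1 hi)).2
  have hSm : S ⊆ Finset.range m := by
    intro x hx
    obtain ⟨i, hi, rfl⟩ := Finset.mem_image.1 hx
    exact Finset.mem_range.2 (hs i (Finset.mem_range.1 hi))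
  have h0 : s 0 ∈ S := Finset.mem_image.2 ⟨0, Finset.mem_range.2 hn0, rfl⟩
  have hiter : ∀ k, (s 0 + k) % m ∈ S := by
    intro k
    induction k with
    | zero => rw [Nat.add_zero, Nat.mod_eq_of_lt (hs 0 hn0)]; exact h0
    | succ k ih =>
      have := hclosed _ ih
      rwa [Nat.mod_add_mod] at this
  have hfull : Finset.range m ⊆ S := by
    intro x hx
    have hx' := Finset.mem_range.1 hx
    have h5 := hiter (m - s 0 + x)
    have h6 : s 0 + (m - s 0 + x) = x + m := by
      have := hs 0 hn0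
      omega
    rwa [h6, Nat.add_mod_right, Nat.mod_eq_of_lt hx'] at h5
  have := Finset.Subset.antisymm hSm hfull
  rw [← hScard, this, Finset.card_range]

theorem antichain {p : ℕ → X} {D : ℕ → Set X} (hp : Function.Injective p)
    (hD : ∀ k, IsOpen (D k))
    (hdisj : ∀ k l x, x ∈ D k → x ∈ D l → k = l) (hpD : ∀ i k, p i ∉ D k)
    (hcl : ∀ k, closure (D k) ⊆ D k ∪ {p (k / 2)}) (hpc : ∀ k, p (k / 2) ∈ closure (D k))
    {e : ℕ → Y} (he : Function.Injective e) {n m : ℕ} (hn : 2 ≤ n)
    (h : Emb (fn D e n) (fn D e m)) : n = m := by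
  obtain ⟨σ, τ, hσ, hτ, hcomm⟩ := h
  have hp0 : ∀ i l, fn D e l (p i) = e 0 := fun i l => fn_of_notMem e fun k _ => hpD i k
  -- main step
  have key : ∀ k < 2 * n, ∃ l < 2 * m, σ (p (k / 2)) = p (l / 2) ∧ τ (val e n k) = val e m l := by
    intro k hk
    set z := τ (val e n k) with hz
    have h1 : σ (p (k / 2)) ∈ closure (fn D e m ⁻¹' {z}) := by
      have h2 := image_closure_subset_closure_image hσ.continuous (s := D k)
        (mem_image_of_mem σ (hpc k))
      refine closure_mono ?_ h2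
      rintro _ ⟨x, hx, rfl⟩
      change fn D e m (σ x) = z
      rw [hcomm, fn_of_mem hdisj e hk hx]
    have h3 : fn D e m (σ (p (k / 2))) = τ (e 0) := by rw [hcomm, hp0]
    have h4 : τ (e 0) ≠ z := fun h => val_ne he n k (hτ.injective h).symm
    have hz0 : z ≠ e 0 := by
      intro h5
      rw [h5] at h1
      have h6 := (preimage_zero_closed hD hdisj (e := e) m).closure_eq ▸ h1
      have h7 : fn D e m (σ (p (k / 2))) = e 0 := h6
      exact h4 (by rw [← h3, h7, h5])
    have h5 : fn D e m ⁻¹' {z} ⊆ ⋃ l ∈ {l | l < 2 * m ∧ val e m l = z}, D l := by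
      intro x hx
      have hx' : fn D e m x = z := hx
      by_cases h6 : ∃ l < 2 * m, x ∈ D l
      · obtain ⟨l, hl, hxl⟩ := h6
        rw [fn_of_mem hdisj e hl hxl] at hx'
        exact mem_iUnion₂.2 ⟨l, ⟨hl, hx'⟩, hxl⟩
      · push Not at h6
        rw [fn_of_notMem e h6] at hx'
        exact absurd hx'.symm hz0
    have hfin : {l | l < 2 * m ∧ val e m l = z}.Finite :=
      (Set.finite_lt_nat (2 * m)).subset fun l hl => hl.1
    have h6 := closure_mono h5 h1
    rw [hfin.closure_biUnion] at h6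
    obtain ⟨l, ⟨hl, hlz⟩, hl2⟩ := mem_iUnion₂.1 h6
    refine ⟨l, hl, ?_, hlz.symm⟩
    rcases hcl l hl2 with h7 | h7
    · exfalso
      rw [fn_of_mem hdisj e hl h7] at h3
      exact h4 (h3.symm.trans hlz)
    · exact h7
  -- the maps on indices
  have key1 : ∀ i < n, ∃ j t, j < m ∧ t < m ∧ σ (p i) = p j ∧ τ (e (i + 1)) = e (t + 1) ∧
      (t = j ∨ t = (j + 1) % m) := by
    intro i hi
    obtain ⟨l, hl, h1, h2⟩ := key (2 * i) (by omega)
    rw [show 2 * i / 2 = i by omega] at h1
    have hv : val e n (2 * i) = e (i + 1) := by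
      unfold val
      rw [if_pos (by omega), show 2 * i / 2 = i by omega]
    rw [hv] at h2
    have hj : l / 2 < m := by omega
    unfold val at h2
    split_ifs at h2 with h3
    · exact ⟨l / 2, l / 2, hj, hj, h1, h2, Or.inl rfl⟩
    · exact ⟨l / 2, (l / 2 + 1) % m, hj, Nat.mod_lt _ (by omega), h1, h2, Or.inr rfl⟩
  choose! s t hs ht hst hτt hor using key1
  have hsi : ∀ i < n, ∀ j < n, s i = s j → i = j := by
    intro i hi j hj h
    apply hp
    apply hσ.injective
    rw [hst i hi, hst j hj, h]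
  have hti : ∀ i < n, ∀ j < n, t i = t j → i = j := by
    intro i hi j hj h
    have h1 : τ (e (i + 1)) = τ (e (j + 1)) := by rw [hτt i hi, hτt j hj, h]
    have := he (hτ.injective h1)
    omega
  refine cycle_core hn s t hs hsi hti hor ?_
  intro i hi
  obtain ⟨l, hl, h1, h2⟩ := key (2 * i + 1) (by omega)
  rw [show (2 * i + 1) / 2 = i by omega] at h1
  have hv : val e n (2 * i + 1) = e ((i + 1) % n + 1) := by
    unfold val
    rw [if_neg (by omega), show (2 * i + 1) / 2 = i by omega]
  rw [hv, hτt _ (Nat.mod_lt _ (by omega))] at h2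
  rw [hst i hi] at h1
  have h3 : s i = l / 2 := hp h1
  unfold val at h2
  split_ifs at h2 with h4
  · left
    have := he h2
    omega
  · right
    have := he h2
    rw [h3]
    omega

end Functions

/-! ### Bad multi-sequences from antichains -/

theorem not_bqo_of_antichain {Q : Type} {r : Q → Q → Prop} (f : ℕ → Q)
    (hf : ∀ i j, i ≠ j → ¬ r (f i) (f j)) : ¬ IsBQO r := by
  intro hcon
  apply hcon
  let A : InfSet := ⟨univ, infinite_univ⟩
  refine ⟨A, fun B => f (sInf B.1.1), ⟨?_, ?_⟩, ?_⟩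
  · exact (countable_range f).mono (by rintro _ ⟨B, rfl⟩; exact mem_range_self _)
  · intro q
    have h1 : ((fun B : Sub A => f (sInf B.1.1)) ⁻¹' {q}) =
        ⋃ k ∈ {k | f k = q}, {B : Sub A | k ∈ B.1.1 ∧ ∀ l < k, l ∉ B.1.1} := by
      ext B
      constructor
      · intro hB
        refine mem_iUnion₂.2 ⟨sInf B.1.1, hB, Nat.sInf_mem B.1.2.nonempty, fun l hl hlB => ?_⟩
        exact absurd (Nat.sInf_le hlB) (by omega)
      · intro hB
        obtain ⟨k, hk, hkB, hl⟩ := mem_iUnion₂.1 hB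
        have : sInf B.1.1 = k := by
          apply le_antisymm (Nat.sInf_le hkB)
          by_contra hlt
          exact hl _ (not_le.1 hlt) (Nat.sInf_mem B.1.2.nonempty)
        change f (sInf B.1.1) = q
        rw [this]
        exact hk
    rw [h1]
    refine isOpen_biUnion fun k _ => ?_
    have hcont0 : Continuous chi := continuous_induced_dom
    have hcont1 : Continuous (fun B : Sub A => (B.1 : InfSet)) := continuous_subtype_val
    have hcont : Continuous (fun B : Sub A => chi B.1) := hcont0.comp hcont1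
    have hchi1 : ∀ (B : Sub A) (l : ℕ), chi B.1 l = true ↔ l ∈ B.1.1 := by
      intro B l
      simp [chi]
    have hchi2 : ∀ (B : Sub A) (l : ℕ), chi B.1 l = false ↔ l ∉ B.1.1 := by
      intro B l
      simp [chi]
    have h2 : {B : Sub A | k ∈ B.1.1 ∧ ∀ l < k, l ∉ B.1.1} =
        ({B : Sub A | chi B.1 k = true} ∩ ⋂ l ∈ Finset.range k, {B : Sub A | chi B.1 l = false}) := by
      ext B
      simp only [mem_inter_iff, mem_iInter, Finset.mem_range]
      constructor
      · rintro ⟨h3, h4⟩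
        exact ⟨(hchi1 B k).2 h3, fun l hl => (hchi2 B l).2 (h4 l hl)⟩
      · rintro ⟨h3, h4⟩
        exact ⟨(hchi1 B k).1 h3, fun l hl => (hchi2 B l).1 (h4 l hl)⟩
    rw [h2]
    have h3 : ∀ (l : ℕ) (b : Bool), IsOpen {B : Sub A | chi B.1 l = b} := by
      intro l b
      have : Continuous (fun B : Sub A => chi B.1 l) := (continuous_apply l).comp hcont
      exact (isOpen_discrete {b}).preimage this
    exact (h3 k true).inter (isOpen_biInter_finset fun l _ => h3 l false)
  · intro B
    apply hf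
    intro h
    have h1 : sInf B.shift.1.1 ∈ B.shift.1.1 := Nat.sInf_mem B.shift.1.2.nonempty
    exact h1.2 (by rw [← h]; rfl)

/-- Main theorem.  If `X` has infinitely many limit points and `Y` is infinite (and discrete), then
embeddability on the Baire class 1 functions (and hence on the Borel functions) from `X` to `Y` has
an infinite antichain. -/
theorem exists_antichain (X Y : Type) [TopologicalSpace X] [TopologicalSpace Y]
    (hX : ZeroDimPolish X) (hinf : (limitPoints X).Infinite) [Infinite Y] :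
    ∃ f : ℕ → X → Y, (∀ n, BaireOne (f n)) ∧ ∀ i j, i ≠ j → ¬ Emb (f i) (f j) := by
  obtain ⟨p, D, hp, hD, hdisj, hpD, hcl, hpc⟩ := exists_config hX hinf
  let e : ℕ ↪ Y := Infinite.natEmbedding Y
  refine ⟨fun n => fn D e (n + 2), fun n => fn_baireOne hX.polish hD hdisj e _, ?_⟩
  intro i j hij h
  have := antichain hp hD hdisj hpD hcl hpc e.injective (by omega) h
  omega

theorem not_bqo (X Y : Type) [TopologicalSpace X] [TopologicalSpace Y]
    (hX : ZeroDimPolish X) (hinf : (limitPoints X).Infinite) [Infinite Y] :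
    ¬ BaireOneBQO X Y ∧ ¬ BorelBQO X Y := by
  obtain ⟨f, hf, hij⟩ := exists_antichain X Y hX hinf
  constructor
  · exact not_bqo_of_antichain (fun n => (⟨f n, hf n⟩ : {f : X → Y // BaireOne f})) hij
  · exact not_bqo_of_antichain (fun n => (⟨f n, (hf n).borel⟩ : {f : X → Y // BorelFun f})) hij


/-! ### An explicit admissible pair -/

theorem zeroDim_cantor : ZeroDimPolish (ℕ → Bool) :=
  have : PolishSpace (ℕ → Bool) := ⟨⟩
  ⟨this, isTopologicalBasis_isClopen⟩

theorem limit_cantor : (limitPoints (ℕ → Bool)).Infinite := by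
  have : limitPoints (ℕ → Bool) = univ := by
    rw [eq_univ_iff_forall]
    intro x hx
    have h := isOpen_singleton_iff_nhds_eq_pure x |>.1 hx
    have hmem : {x} ∈ nhds x := by rw [h]; exact Filter.mem_pure.2 rfl
    rw [nhds_pi, Filter.mem_pi] at hmem
    obtain ⟨I, hI, t, ht, hsub⟩ := hmem
    obtain ⟨n, hn⟩ := hI.exists_notMem
    have h1 : Function.update x n (!(x n)) ∈ I.pi t := by
      intro i hi
      have : i ≠ n := fun h => hn (h ▸ hi)
      rw [Function.update_of_ne this]
      exact mem_of_mem_nhds (ht i)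
    have h2 := hsub h1
    have h3 := congrFun h2 n
    simp at h3
  rw [this]
  exact infinite_univ

theorem zeroDim_nat : ZeroDimPolish ℕ := by
  refine ⟨inferInstance, ?_⟩
  refine TopologicalSpace.isTopologicalBasis_of_isOpen_of_nhds (fun u hu => hu.isOpen) ?_
  intro a u ha _
  exact ⟨u, isClopen_discrete u, ha, Subset.rfl⟩

/-- **Theorem.** Both questions have a negative answer: the pair `(2^ω, ω)` is admissible, and
embeddability is a bqo neither on the Baire class 1 functions nor on the Borel functions from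
`2^ω` to `ω`.  Moreover, whenever `X` is a zero-dimensional Polish space with infinitely many limit
points and `Y` is infinite, embeddability on the Baire class 1 functions from `X` to `Y` has an
infinite antichain, so it is not a bqo, and neither is embeddability on the Borel functions. -/
theorem result :
    ¬ Q1 ∧ ¬ Q2 ∧
    (ZeroDimPolish (ℕ → Bool) ∧ ZeroDimPolish ℕ ∧ Admissible (ℕ → Bool) ℕ ∧
      ¬ BaireOneBQO (ℕ → Bool) ℕ ∧ ¬ BorelBQO (ℕ → Bool) ℕ) ∧
    (∀ (X Y : Type) [TopologicalSpace X] [TopologicalSpace Y], ZeroDimPolish X → Infinite Y →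
      (limitPoints X).Infinite →
      (∃ f : ℕ → X → Y, (∀ n, BaireOne (f n)) ∧ ∀ i j, i ≠ j → ¬ Emb (f i) (f j)) ∧
      ¬ BaireOneBQO X Y ∧ ¬ BorelBQO X Y) := by
  have hadm : Admissible (ℕ → Bool) ℕ := Or.inr inferInstance
  have hnot := not_bqo (ℕ → Bool) ℕ zeroDim_cantor limit_cantor
  refine ⟨?_, ?_, ⟨zeroDim_cantor, zeroDim_nat, hadm, hnot⟩, ?_⟩
  · intro h
    exact hnot.1 (h _ ℕ zeroDim_cantor zeroDim_nat hadm)
  · intro h
    exact hnot.2 (h _ ℕ zeroDim_cantor zeroDim_nat hadm)
  · intro X Y _ _ hX hY hinf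
    exact ⟨exists_antichain X Y hX hinf, not_bqo X Y hX hinf⟩

end Pool.Agent.Results.MP_947ed7_lc.EmbeddabilityNotBQO
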